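import Mathlib
import Pool.Agent.H8.Wij.Defs
import Pool.Agent.H8.Wij.Proof

set_option autoImplicit false

namespace Pool.Agent.Results.MP_491d6e_gt.StrongChoquet

universe u

/-- For every completely metrizable space and every compatible metric on it (the metric of the
`MetricSpace` structure, which need not be complete), the Wijsman hyperspace is strongly
Choquet. -/
theorem result (X : Type u) [MetricSpace X] [TopologicalSpace.IsCompletelyMetrizableSpace X] :
    Pool.Agent.H8.Wij.StronglyChoquet (Pool.Agent.H8.Wij.Hyper X) (Pool.Agent.H8.Wij.wijsman X) :=
  Pool.Agent.H8.Wij.main X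

end Pool.Agent.Results.MP_491d6e_gt.StrongChoquet
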